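import Pool.Agent.H30.DoC

set_option autoImplicit false

namespace Pool.Agent.Results.MP_9098dd_gt.CccFin

open Pool.Agent.H30.Do Pool.Agent.H30.Dia

/-- The property passes to all finite powers exactly when these powers are ccc. -/
theorem result (X : Type) [TopologicalSpace X] (h : Sfin X) :
    (∀ k, Sfin (Fin k → X)) ↔ ∀ k, Ccc (Fin k → X) := by
  simp only [sfin_iff] at h ⊢
  exact ⟨fun H k => (H k).ccc, sel_pow h⟩

end Pool.Agent.Results.MP_9098dd_gt.CccFin
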