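import Pool.Agent.H30.DoC

set_option autoImplicit false

namespace Pool.Agent.Results.MP_9098dd_gt.IndepFin

open Pool.Agent.H30.Do Pool.Agent.H30.Dia

/-- Martin's axiom gives a positive answer and the diamond principle a Tychonoff counterexample. -/
theorem result :
    (MA1 → ∀ (X : Type) [TopologicalSpace X], Sfin X → ∀ k, Sfin (Fin k → X)) ∧
    (Diamond → ∃ (X : Type) (_ : TopologicalSpace X), T35Space X ∧ Sfin X ∧ ¬ Sfin (Fin 2 → X)) := by
  simp only [sfin_iff]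
  refine ⟨fun hM X _ h => sel_pow h (h.ccc.pow hM), fun h => ?_⟩
  obtain ⟨t, ht⟩ := exists_tr h False
  exact ⟨Sp t, inferInstance, inferInstance, fun 𝒰 h𝒰 =>
    let ⟨F, h1, h2⟩ := tr_sel ht 𝒰 h𝒰; ⟨F, fun n => ⟨⟨(h1 n).1.1, False.elim⟩, (h1 n).2⟩, h2⟩,
    fun H => tr_not_ccc ht H.ccc⟩

end Pool.Agent.Results.MP_9098dd_gt.IndepFin
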