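import Pool.Agent.H30.DoC

set_option autoImplicit false

namespace Pool.Agent.Results.MP_9098dd_gt.IndepOne

open Pool.Agent.H30.Do Pool.Agent.H30.Dia

/-- Martin's axiom gives a positive answer and the diamond principle a Tychonoff counterexample. -/
theorem result :
    (MA1 → ∀ (X : Type) [TopologicalSpace X], S1 X → ∀ k, S1 (Fin k → X)) ∧
    (Diamond → ∃ (X : Type) (_ : TopologicalSpace X), T35Space X ∧ S1 X ∧ ¬ S1 (Fin 2 → X)) := by
  simp only [s1_iff]
  refine ⟨fun hM X _ h => sel_pow h (h.ccc.pow hM), fun h => ?_⟩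
  obtain ⟨t, ht⟩ := exists_tr h False
  exact ⟨Sp t, inferInstance, inferInstance, tr_sel ht,
    fun H => tr_not_ccc ht H.ccc⟩

end Pool.Agent.Results.MP_9098dd_gt.IndepOne
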